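import Pool.Agent.helper17.EXC.Spec

/-!
# en:WPG (project EXC, MP_561ff4_al): the Weyl group acts on pairs of root vectors up to signs
-/

set_option autoImplicit false

open Finset

namespace Pool.Agent.EXC

theorem WPG (hNRF : NRF_stmt) (hRFL : RFL_stmt) : WPG_stmt := by
  intro n C _ F _ hb α β α' β' hα hβ hw
  have key : ∀ q : (Fin n → ℤ) × (Fin n → ℤ), WP C (α, β) q → ip C q.1 q.1 = 2 ∧ ip C q.2 q.2 = 2 ∧
      ∃ g ∈ GE C F, ∃ s s' : ℤ, (s = 1 ∨ s = -1) ∧ (s' = 1 ∨ s' = -1) ∧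
        g (E C α) = (s : F) • (E C q.1 : Lm C F) ∧ g (E C β) = (s' : F) • (E C q.2 : Lm C F) := by
    intro q hq
    induction hq with
    | refl =>
      exact ⟨hα, hβ, 1, Subgroup.one_mem _, 1, 1, Or.inl rfl, Or.inl rfl, by simp, by simp⟩
    | @tail p q _ hstep ih =>
      obtain ⟨i, rfl⟩ := hstep
      obtain ⟨h1, h2, g, hg, s, s', hs, hs', e1, e2⟩ := ih
      obtain ⟨g', hg', h3⟩ := hNRF n C F hb i
      obtain ⟨u, hu, f1⟩ := h3 p.1 h1
      obtain ⟨u', hu', f2⟩ := h3 p.2 h2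
      refine ⟨?_, ?_, g' * g, Subgroup.mul_mem _ hg' hg, s * u, s' * u', ?_, ?_, ?_, ?_⟩
      · rw [(hRFL n C i p.1 p.1).1]; exact h1
      · rw [(hRFL n C i p.2 p.2).1]; exact h2
      · rcases hs with rfl | rfl <;> rcases hu with rfl | rfl <;> simp
      · rcases hs' with rfl | rfl <;> rcases hu' with rfl | rfl <;> simp
      · rw [LinearEquiv.mul_apply, e1, map_smul, f1, smul_smul]
        push_cast
        rfl
      · rw [LinearEquiv.mul_apply, e2, map_smul, f2, smul_smul]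
        push_cast
        rfl
  exact (key (α', β') hw).2.2

end Pool.Agent.EXC
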